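import Pool.Agent.H283.HT.Stm

/-!
# Maximum on a face
-/

set_option autoImplicit false

namespace Pool.Agent.H746.HTFACE

open Pool.Agent.H283.HT

theorem FACE_done (hDI : S_DI) (hPOS : S_POS) : S_FACE := by
  intro Q q hQ hq a b c ν hab hbc hca hν hmax hc
  obtain ⟨p1, p2, p3, -, -, -⟩ := hPOS Q q hQ hq
  obtain ⟨-, -, -, d4⟩ := hDI Q hQ
  have hD := p1 a c (hab.trans hbc) hca
  have hD1 := p1 b c hbc (by linarith)
  have hD2 := p1 a b hab (by linarith)
  have htri := p2 a b c hab.le hbc.le hca.le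
  have h3 := p3 a c b
  obtain ⟨x, hx, hx0⟩ := d4 ν hν
  have hM : 0 < dt ν (q a) := lt_of_lt_of_le hx0 (hmax x hx)
  have hb := hmax (q b) (hq.mem b)
  have h4 : det (q a) (q c) * dt ν (q b) = (det (q b) (q c) + det (q a) (q b)) * dt ν (q a) := by
    have e1 := congrArg Prod.fst h3
    have e2 := congrArg Prod.snd h3
    simp only [Prod.smul_fst, Prod.smul_snd, Prod.fst_add, Prod.snd_add, smul_eq_mul] at e1 e2
    have e3 : (det (q b) (q c) + det (q a) (q b)) * dt ν (q a) =
        det (q b) (q c) * dt ν (q a) + det (q a) (q b) * dt ν (q c) := by rw [hc]; ring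
    rw [e3]
    simp only [dt]
    linear_combination ν.1 * e1 + ν.2 * e2
  have h5 : dt ν (q b) = dt ν (q a) := by
    apply le_antisymm hb
    by_contra hlt
    push Not at hlt
    have h6 : det (q a) (q c) * dt ν (q b) < det (q a) (q c) * dt ν (q a) :=
      mul_lt_mul_of_pos_left hlt hD
    have h7 : det (q a) (q c) * dt ν (q a) ≤ (det (q b) (q c) + det (q a) (q b)) * dt ν (q a) :=
      mul_le_mul_of_nonneg_right (by linarith) hM.le
    linarith
  rw [h5] at h4
  have h6 : det (q a) (q c) = det (q b) (q c) + det (q a) (q b) := mul_right_cancel₀ hM.ne' h4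
  refine ⟨h5, det (q b) (q c) / det (q a) (q c), det (q a) (q b) / det (q a) (q c),
    div_pos hD1 hD, div_pos hD2 hD, ?_, ?_⟩
  · rw [← add_div, ← h6, div_self hD.ne']
  · have h7 : q b = (det (q a) (q c))⁻¹ • (det (q a) (q c) • q b) := by
      rw [smul_smul, inv_mul_cancel₀ hD.ne', one_smul]
    refine h7.trans ?_
    rw [h3, smul_add, smul_smul, smul_smul, div_eq_inv_mul, div_eq_inv_mul]

end Pool.Agent.H746.HTFACE
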