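import Mathlib
import Pool.Agent.H465.OC.StmC

/-!
# Project OC, task C8: the `j`-invariant is injective modulo `SL(2, ℤ)`

Proof through the Weierstrass `℘`-function: two lattices with the same `g₂`, `g₃` are equal.
-/

set_option autoImplicit false

noncomputable section

open UpperHalfPlane hiding I
open ModularForm MatrixGroups EisensteinSeries Filter Topology

namespace Pool.Agent.H746.OCJInj

/-! ## Step 1: the lattices `c (ℤ τ + ℤ)` -/

/-- the lattice `c (ℤ τ + ℤ)` -/
def pp (c : ℂ) (hc : c ≠ 0) (τ : ℍ) : PeriodPair where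
  ω₁ := c * τ
  ω₂ := c
  indep := by
    rw [LinearIndependent.pair_iff]
    intro s t h
    have h1 : c * ((s : ℂ) * τ + t) = 0 := by
      simp only [Complex.real_smul] at h
      linear_combination h
    have h2 : (s : ℂ) * τ + t = 0 := by
      rcases mul_eq_zero.mp h1 with h | h
      · exact absurd h hc
      · exact h
    have h3 : s * τ.im = 0 := by
      have := congrArg Complex.im h2
      simpa using this
    have h4 : s = 0 := by
      rcases mul_eq_zero.mp h3 with h | h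
      · exact h
      · exact absurd h τ.im_ne_zero
    refine ⟨h4, ?_⟩
    rw [h4] at h2
    simpa using h2

lemma G_pp (c : ℂ) (hc : c ≠ 0) (τ : ℍ) {k : ℕ} (hk : 3 ≤ k) :
    (pp c hc τ).G k = (c ^ k)⁻¹ * (2 * riemannZeta k * E hk τ) := by
  have h1 : (2 : ℂ) * riemannZeta k * E hk τ = ∑' v : Fin 2 → ℤ, eisSummand k v τ := by
    rw [tsum_eisSummand_eq_riemannZeta_mul_eisensteinSeries hk τ]
    have : E hk τ = (1 / 2 : ℂ) * eisensteinSeries (N := 1) 0 k τ := by
      rw [show E hk τ = (1 / 2 : ℂ) • eisensteinSeriesSIF (N := 1) 0 k τ from rfl,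
        eisensteinSeriesSIF_apply 0 k τ, smul_eq_mul]
    rw [this]
    ring
  rw [h1, PeriodPair.G, ← (pp c hc τ).latticeEquivProd.symm.toEquiv.tsum_eq,
    ← (finTwoArrowEquiv ℤ).symm.tsum_eq, ← tsum_mul_left]
  refine tsum_congr fun x => ?_
  have h2 : (((pp c hc τ).latticeEquivProd.symm.toEquiv x : (pp c hc τ).lattice) : ℂ) =
      c * (x.1 * τ + x.2) := by
    have := (pp c hc τ).latticeEquiv_symm_apply x
    refine this.trans ?_
    show (x.1 : ℂ) * (c * τ) + x.2 * c = _
    ring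
  rw [h2, mul_pow, mul_inv, eisSummand]
  congr 1
  rw [zpow_neg, zpow_natCast]
  rfl

/-! ## Step 3: equal `g₂`, `g₃` give equal lattices -/

variable (L L₁ : PeriodPair)

lemma P_eq (z : ℂ) : L.weierstrassP z = L.weierstrassPExcept 0 z + 1 / z ^ 2 := by
  have := L.weierstrassPExcept_add 0 z
  simp only [ZeroMemClass.coe_zero, sub_zero] at this
  rw [← this]
  simp

lemma P'_eq (z : ℂ) : L.derivWeierstrassP z = L.derivWeierstrassPExcept 0 z - 2 / z ^ 3 := by
  have := L.derivWeierstrassPExcept_sub 0 z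
  simp only [ZeroMemClass.coe_zero, sub_zero] at this
  rw [← this]

/-- `g₂`, `g₃` determine `℘` near `0` -/
lemma near_zero (h2 : L.g₂ = L₁.g₂) (h3 : L.g₃ = L₁.g₃) :
    ∀ᶠ z in 𝓝 (0 : ℂ), L.weierstrassP z = L₁.weierstrassP z := by
  have hA := L.analyticAt_weierstrassPExcept 0
  have hB := L₁.analyticAt_weierstrassPExcept 0
  have hA' := L.analyticAt_derivWeierstrassPExcept 0
  have hB' := L₁.analyticAt_derivWeierstrassPExcept 0
  have hh : AnalyticAt ℂ (fun z => L.weierstrassPExcept 0 z - L₁.weierstrassPExcept 0 z) 0 := hA.sub hB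
  rcases hh.eventually_eq_zero_or_eventually_ne_zero with hz | hz
  · filter_upwards [hz] with z hz
    rw [P_eq L, P_eq L₁, sub_eq_zero.mp hz]
  · exfalso
    have hne : ¬ ∀ᶠ z in 𝓝 (0 : ℂ), (fun z => L.weierstrassPExcept 0 z - L₁.weierstrassPExcept 0 z) z = 0 := by
      intro hcon
      have h5 := (hcon.filter_mono (nhdsWithin_le_nhds (s := {0}ᶜ))).and hz
      obtain ⟨z, h6, h7⟩ := h5.exists
      exact h7 h6
    obtain ⟨n, g, hg, hg0, hgz⟩ := (hh.exists_eventuallyEq_pow_smul_nonzero_iff).mpr hne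
    -- the derivative of the difference
    have hd : ∀ᶠ z in 𝓝 (0 : ℂ), L.derivWeierstrassPExcept 0 z - L₁.derivWeierstrassPExcept 0 z =
        (n : ℂ) * z ^ (n - 1) * g z + z ^ n * deriv g z := by
      have e1 := hgz.eventually_nhds
      have e2 := hg.eventually_analyticAt
      have e3 := L.compl_lattice_sdiff_singleton_mem_nhds 0
      have e4 := L₁.compl_lattice_sdiff_singleton_mem_nhds 0
      filter_upwards [e1, e2, e3, e4] with z h1 h2 h3 h4
      have d1 := L.eqOn_deriv_weierstrassPExcept_derivWeierstrassPExcept 0 h3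
      have d2 := L₁.eqOn_deriv_weierstrassPExcept_derivWeierstrassPExcept 0 h4
      have a1 := (L.analyticOnNhd_weierstrassPExcept 0 z h3).differentiableAt
      have a2 := (L₁.analyticOnNhd_weierstrassPExcept 0 z h4).differentiableAt
      rw [← d1, ← d2, ← deriv_fun_sub a1 a2]
      have h5 : deriv (fun z => L.weierstrassPExcept 0 z - L₁.weierstrassPExcept 0 z) z =
          deriv (fun z => (z - 0) ^ n • g z) z := Filter.EventuallyEq.deriv_eq h1
      rw [h5]
      simp only [sub_zero, smul_eq_mul]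
      rw [deriv_fun_mul (by fun_prop) h2.differentiableAt]
      simp
    -- the main identity
    have hmain : ∀ᶠ z in 𝓝[≠] (0 : ℂ),
        ((n : ℂ) * g z + z * deriv g z) * (z ^ 3 * L.derivWeierstrassPExcept 0 z + z ^ 3 * L₁.derivWeierstrassPExcept 0 z - 4) =
        g z * (4 * ((z ^ 2 * L.weierstrassPExcept 0 z + 1) ^ 2 +
          (z ^ 2 * L.weierstrassPExcept 0 z + 1) * (z ^ 2 * L₁.weierstrassPExcept 0 z + 1) +
          (z ^ 2 * L₁.weierstrassPExcept 0 z + 1) ^ 2) - L.g₂ * z ^ 4) := by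
      filter_upwards [hd.filter_mono nhdsWithin_le_nhds, hgz.filter_mono nhdsWithin_le_nhds,
        nhdsWithin_le_nhds (L.compl_lattice_sdiff_singleton_mem_nhds 0),
        nhdsWithin_le_nhds (L₁.compl_lattice_sdiff_singleton_mem_nhds 0),
        self_mem_nhdsWithin] with z k1 k2 k3 k4 k5
      have k5 : z ≠ 0 := k5
      have m1 : z ∉ L.lattice := fun h => k3 ⟨h, k5⟩
      have m2 : z ∉ L₁.lattice := fun h => k4 ⟨h, k5⟩
      have o1 := L.derivWeierstrassP_sq z m1
      have o2 := L₁.derivWeierstrassP_sq z m2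
      rw [P_eq, P'_eq] at o1 o2
      rw [← h2, ← h3] at o2
      simp only [sub_zero, smul_eq_mul] at k2
      generalize L.weierstrassPExcept 0 z = A at *
      generalize L₁.weierstrassPExcept 0 z = B at *
      generalize L.derivWeierstrassPExcept 0 z = A' at *
      generalize L₁.derivWeierstrassPExcept 0 z = B' at *
      generalize g z = G at *
      generalize deriv g z = G' at *
      generalize L.g₂ = g2 at *
      generalize L.g₃ = g3 at *
      have key : ∀ X Y : ℂ, (X - 2 / z ^ 3) ^ 2 =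
          4 * (Y + 1 / z ^ 2) ^ 3 - g2 * (Y + 1 / z ^ 2) - g3 →
          (z ^ 3 * X - 2) ^ 2 = 4 * (z ^ 2 * Y + 1) ^ 3 - g2 * (z ^ 4 * (z ^ 2 * Y + 1))
            - g3 * z ^ 6 := by
        intro X Y h
        have q1 : z ^ 3 * X - 2 = z ^ 3 * (X - 2 / z ^ 3) := by field_simp
        have q2 : z ^ 2 * Y + 1 = z ^ 2 * (Y + 1 / z ^ 2) := by field_simp
        rw [q1, q2]
        linear_combination z ^ 6 * h
      have p1 := key A' A o1
      have p2 := key B' B o2
      have r1 : z * (A' - B') = z ^ n * ((n : ℂ) * G + z * G') := by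
        rw [k1]
        rcases n with _ | n
        · simp
        · rw [Nat.add_sub_cancel]
          ring
      have hzn : z ^ (n + 2) ≠ 0 := pow_ne_zero _ k5
      refine mul_left_cancel₀ hzn ?_
      have r2 : z ^ 2 * (z * (A' - B')) * (z ^ 3 * A' + z ^ 3 * B' - 4) =
          z ^ 2 * (A - B) * (4 * ((z ^ 2 * A + 1) ^ 2 + (z ^ 2 * A + 1) * (z ^ 2 * B + 1) +
            (z ^ 2 * B + 1) ^ 2) - g2 * z ^ 4) := by
        linear_combination p1 - p2
      rw [r1, k2] at r2
      linear_combination r2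
    -- compare the values at `0`
    have hc1 : ContinuousAt (fun z => ((n : ℂ) * g z + z * deriv g z) *
        (z ^ 3 * L.derivWeierstrassPExcept 0 z + z ^ 3 * L₁.derivWeierstrassPExcept 0 z - 4))
        0 := by
      have c1 := hg.continuousAt
      have c2 := hg.deriv.continuousAt
      have c3 := hA'.continuousAt
      have c4 := hB'.continuousAt
      fun_prop
    have hc2 : ContinuousAt (fun z => g z * (4 * ((z ^ 2 * L.weierstrassPExcept 0 z + 1) ^ 2 +
          (z ^ 2 * L.weierstrassPExcept 0 z + 1) * (z ^ 2 * L₁.weierstrassPExcept 0 z + 1) +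
          (z ^ 2 * L₁.weierstrassPExcept 0 z + 1) ^ 2) - L.g₂ * z ^ 4)) 0 := by
      have c1 := hg.continuousAt
      have c3 := hA.continuousAt
      have c4 := hB.continuousAt
      fun_prop
    have hfin := tendsto_nhds_unique_of_eventuallyEq
      (hc1.tendsto.mono_left (nhdsWithin_le_nhds (s := {0}ᶜ)))
      (hc2.tendsto.mono_left (nhdsWithin_le_nhds (s := {0}ᶜ))) hmain
    have hfin2 : ((n : ℂ) + 3) * g 0 = 0 := by
      norm_num at hfin
      linear_combination (-1 / 4 : ℂ) * hfin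
    rcases mul_eq_zero.mp hfin2 with h | h
    · have : ((n + 3 : ℕ) : ℂ) = 0 := by push_cast; exact h
      rw [Nat.cast_eq_zero] at this
      omega
    · exact hg0 h

/-- a lattice is countable -/
lemma countable_lattice : (L.lattice : Set ℂ).Countable := by
  have : Countable L.lattice := L.latticeEquivProd.toEquiv.countable_iff.mpr inferInstance
  exact Set.countable_coe_iff.mp this

/-- `g₂`, `g₃` determine `℘` outside of the two lattices -/
lemma off_lattices (h2 : L.g₂ = L₁.g₂) (h3 : L.g₃ = L₁.g₃) (z : ℂ) (hz : z ∉ L.lattice)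
    (hz1 : z ∉ L₁.lattice) : L.weierstrassP z = L₁.weierstrassP z := by
  set S : Set ℂ := (L.lattice : Set ℂ) ∪ L₁.lattice with hS
  have hSc : S.Countable := (countable_lattice L).union (countable_lattice L₁)
  have hconn : IsConnected Sᶜ := by
    refine Set.Countable.isConnected_compl_of_one_lt_rank ?_ hSc
    rw [Complex.rank_real_complex]
    norm_num
  have h4 : AnalyticOnNhd ℂ L.weierstrassP Sᶜ :=
    L.analyticOnNhd_weierstrassP.mono (by rw [Set.compl_subset_compl]; exact Set.subset_union_left)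
  have h5 : AnalyticOnNhd ℂ L₁.weierstrassP Sᶜ :=
    L₁.analyticOnNhd_weierstrassP.mono
      (by rw [Set.compl_subset_compl]; exact Set.subset_union_right)
  have hdense : Dense Sᶜ := by
    refine Set.Countable.dense_compl ℝ hSc
  obtain ⟨z₀, hz₀, hz₀'⟩ : ∃ z₀ ∈ Sᶜ, ∀ᶠ z in 𝓝 z₀, L.weierstrassP z = L₁.weierstrassP z := by
    have h6 := (near_zero L L₁ h2 h3).eventually_nhds
    obtain ⟨U, hU, hUo, hU0⟩ := eventually_nhds_iff.mp h6
    obtain ⟨z₀, h7, h8⟩ := hdense.inter_open_nonempty U hUo ⟨0, hU0⟩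
    exact ⟨z₀, h8, hU z₀ h7⟩
  exact h4.eqOn_of_preconnected_of_eventuallyEq h5 hconn.isPreconnected hz₀ hz₀'
    (by rw [Set.mem_compl_iff, hS]; rintro (h | h); exacts [hz h, hz1 h])

lemma le_of_eq (h2 : L.g₂ = L₁.g₂) (h3 : L.g₃ = L₁.g₃) : L.lattice ≤ L₁.lattice := by
  intro l hl
  by_contra hl1
  have h4 := L.order_weierstrassP l hl
  have h5 : L.weierstrassP =ᶠ[𝓝[≠] l] L₁.weierstrassP := by
    filter_upwards [nhdsWithin_le_nhds (L.compl_lattice_sdiff_singleton_mem_nhds l),
      nhdsWithin_le_nhds (L₁.isClosed_lattice.isOpen_compl.mem_nhds hl1),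
      self_mem_nhdsWithin] with z k1 k2 k3
    exact off_lattices L L₁ h2 h3 z (fun h => k1 ⟨h, k3⟩) k2
  rw [meromorphicOrderAt_congr h5] at h4
  have h6 : 0 ≤ meromorphicOrderAt L₁.weierstrassP l :=
    (L₁.analyticOnNhd_weierstrassP l hl1).meromorphicOrderAt_nonneg
  rw [h4] at h6
  revert h6
  decide

lemma lattice_eq (h2 : L.g₂ = L₁.g₂) (h3 : L.g₃ = L₁.g₃) : L.lattice = L₁.lattice :=
  le_antisymm (le_of_eq L L₁ h2 h3) (le_of_eq L₁ L h2.symm h3.symm)

/-! ## Step 2: the scaling factor -/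

lemma exists_scale (x y x' y' : ℂ) (h : x ^ 3 * y' ^ 2 = x' ^ 3 * y ^ 2)
    (h1 : ¬ (x = 0 ∧ y = 0)) (h2 : ¬ (x' = 0 ∧ y' = 0)) :
    ∃ c : ℂ, c ≠ 0 ∧ x' * c ^ 4 = x ∧ y' * c ^ 6 = y := by
  by_cases hx : x = 0
  · have hy : y ≠ 0 := fun hy => h1 ⟨hx, hy⟩
    have hx' : x' = 0 := by
      rw [hx] at h
      have : x' ^ 3 * y ^ 2 = 0 := by rw [← h]; ring
      rcases mul_eq_zero.mp this with h | h
      · exact pow_eq_zero_iff (by norm_num) |>.mp h
      · exact absurd (pow_eq_zero_iff (by norm_num) |>.mp h) hy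
    have hy' : y' ≠ 0 := fun hy => h2 ⟨hx', hy⟩
    obtain ⟨c, hc⟩ := IsAlgClosed.exists_pow_nat_eq (y / y') (n := 6) (by norm_num)
    refine ⟨c, ?_, ?_, ?_⟩
    · rintro rfl
      have : y / y' ≠ 0 := div_ne_zero hy hy'
      apply this
      rw [← hc]
      norm_num
    · rw [hx, hx']; ring
    · rw [hc]; field_simp
  · by_cases hy : y = 0
    · have hy' : y' = 0 := by
        rw [hy] at h
        have : x ^ 3 * y' ^ 2 = 0 := by rw [h]; ring
        rcases mul_eq_zero.mp this with h | h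
        · exact absurd (pow_eq_zero_iff (by norm_num) |>.mp h) hx
        · exact pow_eq_zero_iff (by norm_num) |>.mp h
      have hx' : x' ≠ 0 := fun hx => h2 ⟨hx, hy'⟩
      obtain ⟨c, hc⟩ := IsAlgClosed.exists_pow_nat_eq (x / x') (n := 4) (by norm_num)
      refine ⟨c, ?_, ?_, ?_⟩
      · rintro rfl
        have : x / x' ≠ 0 := div_ne_zero hx hx'
        apply this
        rw [← hc]
        norm_num
      · rw [hc]; field_simp
      · rw [hy, hy']; ring
    · have hx' : x' ≠ 0 := by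
        intro hx'
        have hy' : y' ≠ 0 := fun hy => h2 ⟨hx', hy⟩
        rw [hx'] at h
        have : x ^ 3 * y' ^ 2 = 0 := by rw [h]; ring
        exact mul_ne_zero (pow_ne_zero _ hx) (pow_ne_zero _ hy') this
      have hy' : y' ≠ 0 := by
        intro hy'
        rw [hy'] at h
        have : x' ^ 3 * y ^ 2 = 0 := by rw [← h]; ring
        exact mul_ne_zero (pow_ne_zero _ hx') (pow_ne_zero _ hy) this
      obtain ⟨c, hc⟩ := IsAlgClosed.exists_pow_nat_eq ((y / y') / (x / x')) (n := 2) (by norm_num)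
      have hp : (y / y') ^ 2 = (x / x') ^ 3 := by
        field_simp
        linear_combination -h
      have hX : x / x' ≠ 0 := div_ne_zero hx hx'
      have hY : y / y' ≠ 0 := div_ne_zero hy hy'
      refine ⟨c, ?_, ?_, ?_⟩
      · rintro rfl
        have : (y / y') / (x / x') ≠ 0 := div_ne_zero hY hX
        apply this
        rw [← hc]
        norm_num
      · have : c ^ 4 = x / x' := by
          rw [show c ^ 4 = (c ^ 2) ^ 2 by ring, hc, div_pow, hp]
          generalize x / x' = X at hX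
          field_simp
        rw [this]; field_simp
      · have : c ^ 6 = y / y' := by
          rw [show c ^ 6 = (c ^ 2) ^ 3 by ring, hc, div_pow, ← hp]
          generalize y / y' = Y at hY
          field_simp
        rw [this]; field_simp

/-! ## Step 4: the matrix -/

lemma matrix_of_lattice_eq (c : ℂ) (hc : c ≠ 0) (τ τ' : ℍ)
    (h : (pp c hc τ).lattice = (pp 1 one_ne_zero τ').lattice) :
    ∃ a b c d : ℤ, a * d - b * c = 1 ∧ (τ' : ℂ) * (c * τ + d) = a * τ + b := by
  have h1 : (τ' : ℂ) ∈ (pp c hc τ).lattice := by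
    rw [h]
    refine PeriodPair.mem_lattice.mpr ⟨1, 0, ?_⟩
    show ((1 : ℤ) : ℂ) * (1 * (τ' : ℂ)) + ((0 : ℤ) : ℂ) * 1 = _
    push_cast; ring
  have h2 : (1 : ℂ) ∈ (pp c hc τ).lattice := by
    rw [h]
    refine PeriodPair.mem_lattice.mpr ⟨0, 1, ?_⟩
    show ((0 : ℤ) : ℂ) * (1 * (τ' : ℂ)) + ((1 : ℤ) : ℂ) * 1 = _
    push_cast; ring
  have h3 : c * (τ : ℂ) ∈ (pp 1 one_ne_zero τ').lattice := by
    rw [← h]
    refine PeriodPair.mem_lattice.mpr ⟨1, 0, ?_⟩
    show ((1 : ℤ) : ℂ) * (c * (τ : ℂ)) + ((0 : ℤ) : ℂ) * c = _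
    push_cast; ring
  have h4 : c ∈ (pp 1 one_ne_zero τ').lattice := by
    rw [← h]
    refine PeriodPair.mem_lattice.mpr ⟨0, 1, ?_⟩
    show ((0 : ℤ) : ℂ) * (c * (τ : ℂ)) + ((1 : ℤ) : ℂ) * c = _
    push_cast; ring
  obtain ⟨a, b, hab⟩ := PeriodPair.mem_lattice.mp h1
  obtain ⟨r, s, hrs⟩ := PeriodPair.mem_lattice.mp h2
  obtain ⟨p, q, hpq⟩ := PeriodPair.mem_lattice.mp h3
  obtain ⟨u, v, huv⟩ := PeriodPair.mem_lattice.mp h4
  change (a : ℂ) * (c * τ) + b * c = τ' at hab
  change (r : ℂ) * (c * τ) + s * c = 1 at hrs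
  change (p : ℂ) * (1 * τ') + q * 1 = c * τ at hpq
  change (u : ℂ) * (1 * τ') + v * 1 = c at huv
  have hmain : (τ' : ℂ) * (r * τ + s) = a * τ + b := by
    have hcc : c * ((τ' : ℂ) * (r * τ + s)) = c * (a * τ + b) := by
      linear_combination (τ' : ℂ) * hrs - hab
    exact mul_left_cancel₀ hc hcc
  -- product of the two matrices is the identity
  have e1 : ((a * p + b * u - 1 : ℤ) : ℂ) * τ' + ((a * q + b * v : ℤ) : ℂ) = 0 := by
    push_cast
    linear_combination hab + a * hpq + b * huv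
  have e2 : ((r * p + s * u : ℤ) : ℂ) * τ' + ((r * q + s * v - 1 : ℤ) : ℂ) = 0 := by
    push_cast
    linear_combination hrs + r * hpq + s * huv
  have indep : ∀ m n : ℤ, ((m : ℂ)) * τ' + (n : ℂ) = 0 → m = 0 ∧ n = 0 := by
    intro m n hmn
    have h3 : (m : ℝ) * τ'.im = 0 := by
      have := congrArg Complex.im hmn
      simpa using this
    have h4 : m = 0 := by
      rcases mul_eq_zero.mp h3 with h | h
      · exact_mod_cast h
      · exact absurd h τ'.im_ne_zero
    refine ⟨h4, ?_⟩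
    rw [h4] at hmn
    have : (n : ℂ) = 0 := by simpa using hmn
    exact_mod_cast this
  obtain ⟨i1, i2⟩ := indep _ _ e1
  obtain ⟨i3, i4⟩ := indep _ _ e2
  have hdet : (a * s - b * r) * (p * v - q * u) = 1 := by
    have j1 : a * p + b * u = 1 := by linarith
    have j2 : a * q + b * v = 0 := i2
    have j3 : r * p + s * u = 0 := i3
    have j4 : r * q + s * v = 1 := by linarith
    linear_combination j1 * (r * q + s * v) + j4 - j2 * (r * p + s * u)
  -- sign of the determinant
  have him : τ'.im * ((r * τ.re + s) ^ 2 + (r * τ.im) ^ 2) = ((a * s - b * r : ℤ) : ℝ) * τ.im := by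
    have k1 := congrArg Complex.re hmain
    have k2 := congrArg Complex.im hmain
    simp at k1 k2
    push_cast
    linear_combination (r * τ.re + s) * k2 - (r * τ.im) * k1
  have hpos : 0 ≤ a * s - b * r := by
    by_contra hneg
    rw [not_le] at hneg
    have l1 : ((a * s - b * r : ℤ) : ℝ) < 0 := by exact_mod_cast hneg
    have l2 := mul_neg_of_neg_of_pos l1 τ.im_pos
    rw [← him] at l2
    have l3 : 0 ≤ τ'.im * ((r * τ.re + s) ^ 2 + (r * τ.im) ^ 2) := by
      have := τ'.im_pos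
      positivity
    linarith
  refine ⟨a, b, r, s, ?_, hmain⟩
  rcases Int.eq_one_or_neg_one_of_mul_eq_one hdet with h | h
  · exact h
  · rw [h] at hpos
    norm_num at hpos

/-- `E₄` and `E₆` do not vanish simultaneously -/
lemma not_both (τ : ℍ) : ¬ (E₄ τ = 0 ∧ E₆ τ = 0) := by
  rintro ⟨h1, h2⟩
  have := discriminant_eq_E₄_cube_sub_E₆_sq τ
  rw [h1, h2] at this
  apply discriminant_ne_zero τ
  rw [this]
  norm_num

/-- Task C8 -/
theorem main : Pool.Agent.H465.OC.JInj := by
  intro τ τ' h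
  rw [discriminant_eq_E₄_cube_sub_E₆_sq τ, discriminant_eq_E₄_cube_sub_E₆_sq τ'] at h
  have h1 : E₄ τ ^ 3 * E₆ τ' ^ 2 = E₄ τ' ^ 3 * E₆ τ ^ 2 := by
    linear_combination (-1728 : ℂ) * h
  obtain ⟨c, hc, h4, h6⟩ := exists_scale _ _ _ _ h1 (not_both τ) (not_both τ')
  refine matrix_of_lattice_eq c hc τ τ' (lattice_eq _ _ ?_ ?_)
  · unfold PeriodPair.g₂
    have e1 := G_pp c hc τ (k := 4) (by norm_num)
    have e2 := G_pp 1 one_ne_zero τ' (k := 4) (by norm_num)
    rw [e1, e2, show (E (by norm_num : 3 ≤ 4) τ : ℂ) = E₄ τ from rfl,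
      show (E (by norm_num : 3 ≤ 4) τ' : ℂ) = E₄ τ' from rfl, ← h4]
    field_simp
  · unfold PeriodPair.g₃
    have e1 := G_pp c hc τ (k := 6) (by norm_num)
    have e2 := G_pp 1 one_ne_zero τ' (k := 6) (by norm_num)
    rw [e1, e2, show (E (by norm_num : 3 ≤ 6) τ : ℂ) = E₆ τ from rfl,
      show (E (by norm_num : 3 ≤ 6) τ' : ℂ) = E₆ τ' from rfl, ← h6]
    field_simp

end Pool.Agent.H746.OCJInj
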