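import Pool.Agent.H465.OC.StmB
import Pool.Graph.R_pool_sql_team_seeded_3997aac3.Q279.SC.J.HS3

/-!
# Project OC, task B10: the Hasse polynomial at the cusp
-/

set_option autoImplicit false

namespace Pool.Agent.H746.OCHs11

open Pool.Agent.Q279.SC Pool.Agent.Q279.SC.JAODE Pool.Agent.Q279.SC.JHS3

theorem hs_val (p : ℕ) [hp : Fact p.Prime] (hp5 : 5 ≤ p) :
    at2 1 1 (hs p) = (-9 : ZMod p) ^ ((p - 1) / 2) := by
  have h2 := two_half p hp.out hp5
  set n := (p - 1) / 2 with hn
  have h1 : at2 1 1 (hs p) = (((Polynomial.X + Polynomial.C 3) ^ 2 *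
      (Polynomial.X - Polynomial.C 6)) ^ n : Polynomial (ZMod p)).coeff (p - 1) := by
    rw [at2, hs, ← Polynomial.coeff_map, Polynomial.map_pow]
    congr 2
    rw [cub]
    simp only [Polynomial.map_sub, Polynomial.map_pow, Polynomial.map_mul, Polynomial.map_X,
      Polynomial.map_C, map_mul, map_ofNat, MvPolynomial.eval_X, Matrix.cons_val_zero,
      Matrix.cons_val_one, Polynomial.map_ofNat, map_one, mul_one]
    ring
  have hdeg : (((Polynomial.X + Polynomial.C 3) ^ 2 *
      (Polynomial.X - Polynomial.C 6)) ^ n : Polynomial (ZMod p)).natDegree < 2 * (p - 1) := by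
    have e : (((Polynomial.X + Polynomial.C 3) ^ 2 *
      (Polynomial.X - Polynomial.C 6)) : Polynomial (ZMod p)).natDegree ≤ 3 := by
      refine Polynomial.natDegree_mul_le.trans ?_
      have e1 := Polynomial.natDegree_pow_le (p := (Polynomial.X + Polynomial.C 3 : Polynomial (ZMod p)))
        (n := 2)
      rw [Polynomial.natDegree_X_add_C] at e1
      rw [Polynomial.natDegree_X_sub_C]
      omega
    have e2 := (Polynomial.natDegree_pow_le (p := (((Polynomial.X + Polynomial.C 3) ^ 2 *
      (Polynomial.X - Polynomial.C 6)) : Polynomial (ZMod p))) (n := n))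
    have e3 : n * (((Polynomial.X + Polynomial.C 3) ^ 2 *
      (Polynomial.X - Polynomial.C 6)) : Polynomial (ZMod p)).natDegree ≤ n * 3 :=
      Nat.mul_le_mul_left _ e
    omega
  rw [h1, coeff_eq p _ hdeg]
  have h3 : ∀ a : ZMod p, (((Polynomial.X + Polynomial.C 3) ^ 2 *
      (Polynomial.X - Polynomial.C 6)) ^ n : Polynomial (ZMod p)).eval a =
      (a - 6) ^ n - if a = -3 then (-9) ^ n else 0 := by
    intro a
    simp only [Polynomial.eval_pow, Polynomial.eval_mul, Polynomial.eval_add, Polynomial.eval_X,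
      Polynomial.eval_C, Polynomial.eval_sub]
    rw [mul_pow, ← pow_mul, h2]
    split_ifs with ha
    · rw [ha, neg_add_cancel, zero_pow (by omega), zero_mul]
      norm_num
    · have : a + 3 ≠ 0 := fun h => ha (by linear_combination h)
      rw [ZMod.pow_card_sub_one_eq_one this, one_mul, sub_zero]
  rw [Finset.sum_congr rfl fun a _ => h3 a, Finset.sum_sub_distrib, Finset.sum_ite_eq' Finset.univ
    (-3 : ZMod p) (fun _ => (-9 : ZMod p) ^ n), if_pos (Finset.mem_univ _)]
  have h4 : ∑ a : ZMod p, (a - 6) ^ n = 0 := by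
    rw [← FiniteField.sum_pow_lt_card_sub_one (ZMod p) n (by rw [ZMod.card]; omega)]
    exact Fintype.sum_equiv (Equiv.subRight 6) _ _ fun a => rfl
  rw [h4, zero_sub, neg_neg]

theorem main : Pool.Agent.H465.OC.Hs11 := by
  intro p hp hp5
  have h2 := two_half p hp.out hp5
  have h9 : (-9 : ZMod p) ≠ 0 := by
    intro h
    have h5 : ((9 : ℕ) : ZMod p) = 0 := by
      push_cast
      linear_combination -h
    rw [ZMod.natCast_eq_zero_iff] at h5
    have h6 : p ∣ 3 ^ 2 := h5
    have := Nat.le_of_dvd (by norm_num) (hp.out.dvd_of_dvd_pow h6)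
    omega
  rw [hs_val p hp5, ← pow_mul, mul_comm, h2]
  exact ZMod.pow_card_sub_one_eq_one h9

end Pool.Agent.H746.OCHs11
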