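import Pool.Agent.H979.DE.Stm

/-!
Project DE, task CONF (helper746).
-/

set_option autoImplicit false

open MeasureTheory Finset Filter Pool.Agent.H41.Derrw Pool.Agent.H979.DE
open scoped ENNReal

namespace Pool.Agent.H746

/-- a set which depends on finitely many coordinates is measurable -/
lemma de_meas_of_dep {V : Type} [Countable V] [MeasurableSpace V] [DiscreteMeasurableSpace V]
    (S : Set (ℕ → V)) (n : ℕ)
    (h : ∀ w w' : ℕ → V, (∀ k ≤ n, w k = w' k) → w ∈ S → w' ∈ S) : MeasurableSet S := by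
  have hπ : Measurable (fun (w : ℕ → V) (i : Fin (n + 1)) => w i) :=
    measurable_pi_lambda _ fun i => measurable_pi_apply _
  have h1 : S = (fun (w : ℕ → V) (i : Fin (n + 1)) => w i) ⁻¹'
      ((fun (w : ℕ → V) (i : Fin (n + 1)) => w i) '' S) := by
    ext w
    constructor
    · intro hw
      exact ⟨w, hw, rfl⟩
    · rintro ⟨w', hw', he⟩
      exact h w' w (fun k hk => congrFun he ⟨k, by omega⟩) hw'
  rw [h1]
  exact hπ (Set.Countable.measurableSet (Set.to_countable _))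

lemma de_cross_congr {V : Type} [DecidableEq V] (w w' : ℕ → V) (k : ℕ)
    (h : ∀ i ≤ k, w i = w' i) (x y : V) : cross w k x y = cross w' k x y := by
  unfold cross
  refine Finset.sum_congr rfl fun i hi => ?_
  rw [Finset.mem_range] at hi
  rw [h i (by omega), h (i + 1) (by omega)]

lemma de_meas_Ev {V : Type} [DecidableEq V] [Countable V] [MeasurableSpace V]
    [DiscreteMeasurableSpace V] (B : Finset V) (n : ℕ) : MeasurableSet (Ev B n) := by
  have h1 : Ev B n = ⋂ k : ℕ, {w : ℕ → V | n ≤ k → (∀ j, n ≤ j → j ≤ k → w j ∈ B) → Reg w k} := by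
    ext w
    simp only [Ev, Set.mem_ofPred_eq, Set.mem_iInter]
  rw [h1]
  refine MeasurableSet.iInter fun k => ?_
  refine de_meas_of_dep _ (k + 1) ?_
  intro w w' h hw hk hB
  have h2 : Reg w k := hw hk fun j hj1 hj2 => by
    rw [h j (by omega)]
    exact hB j hj1 hj2
  unfold Reg at h2 ⊢
  rw [← h k (by omega), ← h (k + 1) le_rfl,
    ← de_cross_congr w w' k (fun i hi => h i (by omega))]
  exact h2

/-- A walk confined to a finite set makes eventually only regular steps. -/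
theorem de_conf (hKEY : S_KEY) (hFOLLOW : S_FOLLOW) (hLEVY : S_LEVY) (hVAL : S_VAL) : S_CONF := by
  intro V _ _ _ _ G _ γ v P hG hP B B' D L p H hD hBB hp hHm hH01 hHp hirr hdeg hcont
  have : IsProbabilityMeasure P := hP.1
  have hH0 : 0 < H 0 := (hH01 0).1
  have hDr : (0 : ℝ) < D := by exact_mod_cast hD
  have hDr1 : (1 : ℝ) / D ≤ 1 := by
    rw [div_le_one hDr]
    exact_mod_cast hD
  have hE : MeasurableSet (⋃ m, Ev B' m : Set (ℕ → V)) :=
    MeasurableSet.iUnion fun m => de_meas_Ev B' m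
  have hε : 0 < ENNReal.ofReal (H 0 ^ B'.card * (1 / (D : ℝ)) ^ L) := by
    rw [ENNReal.ofReal_pos]
    positivity
  have hQ : ∀ (w : ℕ → V) (n : ℕ), (Val G w n ∧ w n ∈ B) →
      ENNReal.ofReal (H 0 ^ B'.card * (1 / (D : ℝ)) ^ L) * P (cyl w n) ≤
        P (cyl w n ∩ ⋃ m, Ev B' m) := by
    rintro w n ⟨hw, hwB⟩
    obtain ⟨y, hy, hyV, m₀, hm1, hm2, hm3⟩ := hcont w n hw hwB
    classical
    have hex : ∃ m, n ≤ m ∧ Good G y m := ⟨m₀, hm1, hm3⟩
    obtain ⟨hnm, hgood⟩ := Nat.find_spec hex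
    have hle : Nat.find hex ≤ m₀ := Nat.find_min' hex ⟨hm1, hm3⟩
    have hmin : ∀ j, n ≤ j → j < Nat.find hex → ¬ Good G y j := fun j hj1 hj2 hj3 =>
      Nat.find_min hex hj2 ⟨hj1, hj3⟩
    generalize Nat.find hex = m at hnm hgood hle hmin
    have h1 := hFOLLOW V G γ v P hP D y n m hD hnm (hyV m)
      (fun j hj1 hj2 => ⟨hmin j hj1 hj2, hdeg _⟩)
    have h2 := hKEY V G γ v P hG hP B' p H hp hHm hH01 hHp hirr y m (hyV m) hgood
    have hcyl : cyl y n = cyl w n := by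
      ext u
      simp only [cyl, Set.mem_ofPred_eq]
      constructor
      · intro h k hk
        rw [h k hk, hy k hk]
      · intro h k hk
        rw [h k hk, hy k hk]
    have hsub : cyl y m ∩ Ev B' m ⊆ cyl w n ∩ ⋃ m, Ev B' m := by
      rintro u ⟨hu1, hu2⟩
      refine ⟨?_, Set.mem_iUnion.mpr ⟨m, hu2⟩⟩
      rw [← hcyl]
      exact fun k hk => hu1 k (hk.trans hnm)
    have hpow : (1 / (D : ℝ)) ^ L ≤ (1 / (D : ℝ)) ^ (m - n) :=
      pow_le_pow_of_le_one (by positivity) hDr1 (by omega)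
    calc ENNReal.ofReal (H 0 ^ B'.card * (1 / (D : ℝ)) ^ L) * P (cyl w n)
        = ENNReal.ofReal (H 0 ^ B'.card) *
            (ENNReal.ofReal ((1 / (D : ℝ)) ^ L) * P (cyl y n)) := by
          rw [ENNReal.ofReal_mul (by positivity), hcyl, mul_assoc]
      _ ≤ ENNReal.ofReal (H 0 ^ B'.card) *
            (ENNReal.ofReal ((1 / (D : ℝ)) ^ (m - n)) * P (cyl y n)) := by
          gcongr
      _ ≤ ENNReal.ofReal (H 0 ^ B'.card) * P (cyl y m) := by
          gcongr
      _ ≤ P (cyl y m ∩ Ev B' m) := h2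
      _ ≤ P (cyl w n ∩ ⋃ m, Ev B' m) := measure_mono hsub
  have hL := hLEVY V P (⋃ m, Ev B' m) hE _ hε (fun w n => Val G w n ∧ w n ∈ B) hQ
  filter_upwards [hL, hVAL V G γ v P hP] with w h1 h2 h3
  have h4 : ∃ᶠ n in atTop, Val G w n ∧ w n ∈ B :=
    Frequently.of_forall fun n => ⟨h2.2 n, h3 n⟩
  obtain ⟨m, hm⟩ := Set.mem_iUnion.mp (h1 h4)
  exact ⟨m, fun k hk => hm k hk fun j _ _ => hBB (h3 j)⟩

end Pool.Agent.H746
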