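import Pool.Agent.H867.FT.Gen2

/-!
# Valuation inequality at one prime
-/

namespace Pool.Agent.H746.FT867BNT

open Pool.Agent.H867.FT

theorem bnt : Pool.Agent.H867.FT.S_BNT := by
  intro V L W K _ _ _ _ _ _ _ _ _ _ _ _ _ _ _ _ _ _ _ n N M π w h τ 𝔔 s s' r hπ _ hw hQ hπQ _ hs'
    h1 h2
  by_contra hlt
  push Not at hlt
  have hVK : ∀ v : V, algebraMap V K v = algebraMap W K (algebraMap V W v) := fun v =>
    IsScalarTower.algebraMap_apply V W K v
  have hπK : algebraMap V K π ≠ 0 := by
    rw [IsScalarTower.algebraMap_apply V L K]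
    intro h0
    have h3 : algebraMap V L π = 0 := (algebraMap L K).injective (by rw [h0, map_zero])
    exact hπ.ne_zero (IsFractionRing.injective V L (by rw [h3, map_zero]))
  obtain ⟨j, hj⟩ : ∃ j : ℕ, 4 * N + 2 * n = 4 * M + (j + 1) :=
    ⟨4 * N + 2 * n - 4 * M - 1, by omega⟩
  have key : algebraMap W K (w ^ 4 * r * s ^ n * algebraMap V W π ^ (j + 1)) =
      algebraMap W K (s' ^ n) := by
    simp only [map_mul, map_pow, ← hVK]
    have h3 : algebraMap V K π ^ (4 * M) ≠ 0 := pow_ne_zero _ hπK
    apply mul_left_cancel₀ h3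
    calc algebraMap V K π ^ (4 * M) * (algebraMap W K w ^ 4 * algebraMap W K r *
          algebraMap W K s ^ n * algebraMap V K π ^ (j + 1)) =
          algebraMap V K π ^ (4 * M + (j + 1)) * (algebraMap W K w ^ 4 * algebraMap W K r *
          algebraMap W K s ^ n) := by
            rw [pow_add]
            ring
      _ = algebraMap V K π ^ (4 * N + 2 * n) * (algebraMap W K w ^ 4 * (h ^ 4 * τ ^ n) *
          algebraMap W K s ^ n) := by rw [hj, h2]
      _ = (algebraMap W K w * h * algebraMap V K π ^ N) ^ 4 *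
          (algebraMap W K s * (algebraMap V K π ^ 2 * τ)) ^ n := by
            rw [pow_add, pow_mul' _ 4 N, pow_mul _ 2 n]
            ring
      _ = algebraMap V K π ^ (4 * M) * algebraMap W K s' ^ n := by
            rw [hw, h1, ← pow_mul, mul_comm M 4]
  have key2 := IsFractionRing.injective W K key
  apply hs'
  apply hQ.mem_of_pow_mem n
  rw [← key2, pow_succ (algebraMap V W π) j]
  exact Ideal.mul_mem_left _ _ (Ideal.mul_mem_left _ _ hπQ)

end Pool.Agent.H746.FT867BNT
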