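import Pool.Agent.H812.SF.Stm3

/-!
SF-NSIM (helper746): domains with different rotation groups are not similar.
-/

open Set Filter Topology

set_option autoImplicit false

namespace Pool.Agent.H746.SfNSIM

open Pool.Agent.N229.SC Pool.Agent.H812.SF

/-- the isometry -/
private noncomputable def tJ : ℂ ≃ₗᵢ[ℝ] E2 := Complex.orthonormalBasisOneI.repr

private lemma tJ_eq : (fun z : ℂ => (!₂[z.re, z.im] : E2)) = tJ := by
  funext z
  ext i
  fin_cases i <;> simp [tJ]

private lemma norm_one {m : ℕ} {ω : ℂ} (hm : 2 ≤ m) (h : ω ^ m = 1) : ‖ω‖ = 1 :=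
  Complex.norm_eq_one_of_pow_eq_one h (by omega)

/-- The main part, for the map `z ↦ κ * c z + b`, where `c` is the identity or the conjugation. -/
private lemma core (Ω Ω' : Set ℂ) (n n' : ℕ) (hb' : Bornology.IsBounded Ω') (hne : Ω.Nonempty)
    (h2 : 2 ≤ n) (h2' : 2 ≤ n') (hR : RotN n Ω) (hR' : RotN n' Ω') (c : ℂ →+* ℂ)
    (hc : ∀ z, c (c z) = z) (hcn : ∀ z, ‖c z‖ = ‖z‖) (κ b : ℂ) (hκ : κ ≠ 0)
    (hS : (fun z => κ * c z + b) '' Ω = Ω') : n = n' := by
  have h1 : ∀ ω : ℂ, ω ^ n = 1 → ∀ y ∈ Ω', ω * (y - b) + b ∈ Ω' := by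
    intro ω hω y hy
    rw [← hS] at hy
    obtain ⟨z, hz, rfl⟩ := hy
    have h3 : (c ω) ^ n = 1 := by rw [← map_pow, hω, map_one]
    have h4 := (hR (c ω) (norm_one h2 h3)).2 h3
    have h5 : c ω * z ∈ Ω := by
      rw [← h4]
      exact ⟨z, hz, rfl⟩
    rw [← hS]
    refine ⟨c ω * z, h5, ?_⟩
    simp only [map_mul, hc]
    ring
  have h1' : ∀ ω : ℂ, ω ^ n' = 1 → ∀ y ∈ Ω', ω * y ∈ Ω' := by
    intro ω hω y hy
    have h4 := (hR' ω (norm_one h2' hω)).2 hω
    rw [← h4]
    exact ⟨y, hy, rfl⟩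
  have hp := Complex.isPrimitiveRoot_exp n (by omega)
  have hp' := Complex.isPrimitiveRoot_exp n' (by omega)
  -- the centre
  have hb0 : b = 0 := by
    set ω := Complex.exp (2 * Real.pi * Complex.I / n) with hω
    set ω' := Complex.exp (2 * Real.pi * Complex.I / n') with hω'
    have hω1 : ω ≠ 1 := hp.ne_one (by omega)
    have hω1' : ω' ≠ 1 := hp'.ne_one (by omega)
    have hω0 : ω ≠ 0 := Complex.exp_ne_zero _
    have hω0' : ω' ≠ 0 := Complex.exp_ne_zero _
    have hstep : ∀ x ∈ Ω', x + (1 - ω) * (1 - ω') * b ∈ Ω' := by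
      intro x hx
      have s1 := h1' ω'⁻¹ (by rw [inv_pow, hp'.pow_eq_one, inv_one]) x hx
      have s2 := h1 ω⁻¹ (by rw [inv_pow, hp.pow_eq_one, inv_one]) _ s1
      have s3 := h1' ω' hp'.pow_eq_one _ s2
      have s4 := h1 ω hp.pow_eq_one _ s3
      have e : ω * (ω' * (ω⁻¹ * (ω'⁻¹ * x - b) + b) - b) + b =
          x + (1 - ω) * (1 - ω') * b := by
        field_simp
        ring
      rwa [e] at s4
    have hit : ∀ x ∈ Ω', ∀ m : ℕ, x + m * ((1 - ω) * (1 - ω') * b) ∈ Ω' := by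
      intro x hx m
      induction m with
      | zero => simpa using hx
      | succ m ih =>
        have h := hstep _ ih
        have e : x + (m : ℂ) * ((1 - ω) * (1 - ω') * b) + (1 - ω) * (1 - ω') * b =
            x + ((m + 1 : ℕ) : ℂ) * ((1 - ω) * (1 - ω') * b) := by
          push_cast
          ring
        rwa [e] at h
    obtain ⟨z, hz⟩ := hne
    have hx : κ * c z + b ∈ Ω' := by
      rw [← hS]
      exact ⟨z, hz, rfl⟩
    obtain ⟨R, hRb⟩ := hb'.exists_norm_le
    have hτ : (1 - ω) * (1 - ω') * b = 0 := by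
      by_contra hτ
      have hpos : 0 < ‖(1 - ω) * (1 - ω') * b‖ := norm_pos_iff.2 hτ
      obtain ⟨m, hm⟩ := exists_nat_gt ((R + ‖κ * c z + b‖) / ‖(1 - ω) * (1 - ω') * b‖)
      rw [div_lt_iff₀ hpos] at hm
      have h6 := hRb _ (hit _ hx m)
      have h7 : ‖(m : ℂ) * ((1 - ω) * (1 - ω') * b)‖ = m * ‖(1 - ω) * (1 - ω') * b‖ := by
        rw [norm_mul, Complex.norm_natCast]
      have h8 : ‖(m : ℂ) * ((1 - ω) * (1 - ω') * b)‖ ≤
          ‖κ * c z + b + (m : ℂ) * ((1 - ω) * (1 - ω') * b)‖ + ‖κ * c z + b‖ := by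
        have h9 := norm_sub_le (κ * c z + b + (m : ℂ) * ((1 - ω) * (1 - ω') * b)) (κ * c z + b)
        have e : κ * c z + b + (m : ℂ) * ((1 - ω) * (1 - ω') * b) - (κ * c z + b) =
            (m : ℂ) * ((1 - ω) * (1 - ω') * b) := by ring
        rwa [e] at h9
      rw [h7] at h8
      linarith
    rcases mul_eq_zero.1 hτ with h | h
    · rcases mul_eq_zero.1 h with h | h
      · exact absurd (sub_eq_zero.1 h).symm hω1
      · exact absurd (sub_eq_zero.1 h).symm hω1'
    · exact h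
  subst hb0
  -- the two groups
  have hA : ∀ ω : ℂ, ω ^ n = 1 → ω ^ n' = 1 := by
    intro ω hω
    refine (hR' ω (norm_one h2 hω)).1 ?_
    have hω0 : ω ≠ 0 := by
      intro h
      rw [h, zero_pow (by omega)] at hω
      exact zero_ne_one hω
    apply Subset.antisymm
    · rintro _ ⟨y, hy, rfl⟩
      have := h1 ω hω y hy
      simpa using this
    · intro y hy
      have := h1 ω⁻¹ (by rw [inv_pow, hω, inv_one]) y hy
      refine ⟨ω⁻¹ * y, by simpa using this, ?_⟩
      show ω * (ω⁻¹ * y) = y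
      rw [mul_inv_cancel_left₀ hω0]
  have hB : ∀ ω : ℂ, ω ^ n' = 1 → ω ^ n = 1 := by
    intro ω hω
    have hω0 : ω ≠ 0 := by
      intro h
      rw [h, zero_pow (by omega)] at hω
      exact zero_ne_one hω
    have hω0' : c ω ≠ 0 := by
      intro h
      have := hc ω
      rw [h, map_zero] at this
      exact hω0 this.symm
    -- the preimage
    have hmem : ∀ z, κ * c z + 0 ∈ Ω' → z ∈ Ω := by
      intro z hz
      rw [← hS] at hz
      obtain ⟨z', hz', e⟩ := hz
      have e' : κ * c z' = κ * c z := by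
        have e2 : κ * c z' + 0 = κ * c z + 0 := e
        simpa using e2
      have e3 : c z' = c z := mul_left_cancel₀ hκ e'
      have e4 : z' = z := by rw [← hc z', ← hc z, e3]
      rwa [← e4]
    have hin : ∀ τ : ℂ, τ ^ n' = 1 → ∀ z ∈ Ω, c τ * z ∈ Ω := by
      intro τ hτ z hz
      apply hmem
      have h5 : κ * c z + 0 ∈ Ω' := by
        rw [← hS]
        exact ⟨z, hz, rfl⟩
      have h6 := h1' τ hτ _ h5
      have e : τ * (κ * c z + 0) = κ * c (c τ * z) + 0 := by
        rw [map_mul, hc]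
        ring
      rwa [e] at h6
    have hinv : (fun z : ℂ => c ω * z) '' Ω = Ω := by
      apply Subset.antisymm
      · rintro _ ⟨z, hz, rfl⟩
        exact hin ω hω z hz
      · intro z hz
        have h7 := hin ω⁻¹ (by rw [inv_pow, hω, inv_one]) z hz
        rw [map_inv₀] at h7
        refine ⟨(c ω)⁻¹ * z, h7, ?_⟩
        show c ω * ((c ω)⁻¹ * z) = z
        rw [mul_inv_cancel_left₀ hω0']
    have h8 := (hR (c ω) (by rw [hcn, norm_one h2' hω])).1 hinv
    have h9 : c ((c ω) ^ n) = 1 := by rw [h8, map_one]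
    rwa [map_pow, hc] at h9
  exact Nat.dvd_antisymm (hp.dvd_of_pow_eq_one _ (hA _ hp.pow_eq_one))
    (hp'.dvd_of_pow_eq_one _ (hB _ hp'.pow_eq_one))

/-- **SF-NSIM** -/
theorem proof_NSIM : S_NSIM := by
  intro Ω Ω' n n' _ hb' hne h2 h2' hR hR' hsim
  rw [tJ_eq] at hsim
  obtain ⟨k, T, b, hk, hS⟩ := hsim
  let f : ℂ ≃ₗᵢ[ℝ] ℂ := (tJ.trans T).trans tJ.symm
  have hf : ∀ z, T (tJ z) = tJ (f z) := by
    intro z
    simp [f]
  -- the map in the complex plane
  have hS' : (fun z : ℂ => (k : ℂ) * f z + tJ.symm b) '' Ω = Ω' := by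
    have h1 : tJ '' ((fun z : ℂ => (k : ℂ) * f z + tJ.symm b) '' Ω) = tJ '' Ω' := by
      rw [← hS, image_image, image_image]
      refine image_congr fun z _ => ?_
      rw [map_add, LinearIsometryEquiv.apply_symm_apply, hf, ← Complex.real_smul, map_smul]
    exact tJ.injective.image_injective h1
  have hk0 : (k : ℂ) ≠ 0 := by exact_mod_cast hk.ne'
  obtain ⟨a, ha | ha⟩ := linear_isometry_complex f
  · refine core Ω Ω' n n' hb' hne h2 h2' hR hR' (RingHom.id ℂ) (fun z => rfl) (fun z => rfl)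
      ((k : ℂ) * a) (tJ.symm b) (mul_ne_zero hk0 (Circle.coe_ne_zero a)) ?_
    rw [← hS']
    refine image_congr fun z _ => ?_
    rw [ha, rotation_apply, RingHom.id_apply, mul_assoc]
  · refine core Ω Ω' n n' hb' hne h2 h2' hR hR' (starRingEnd ℂ) (fun z => Complex.conj_conj z)
      (fun z => Complex.norm_conj z)
      ((k : ℂ) * a) (tJ.symm b) (mul_ne_zero hk0 (Circle.coe_ne_zero a)) ?_
    rw [← hS']
    refine image_congr fun z _ => ?_
    rw [ha, LinearIsometryEquiv.trans_apply, rotation_apply, Complex.conjLIE_apply, mul_assoc]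

end Pool.Agent.H746.SfNSIM
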